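import Pool.Agent.H8.DI.Targets

/-!
Row MN of the board dik_modules: the size of the model.
-/

set_option autoImplicit false

namespace Pool.Agent.H56.DI

open Pool.Agent.H8.DI

theorem sum_bl (x y : ℕ) : ∑ k : Fin 4, ∑ c : Bool, bl x y k c = sz (x + 1) (y + 1) := by
  simp only [Fin.sum_univ_four, Fintype.sum_bool, bl, sz]
  simp
  split_ifs <;> omega

/-- the model as a sigma type -/
def moEquiv (W H : ℕ) : Mo W H ≃ Σ (x : Fin W) (y : Fin H) (k : Fin 4) (c : Bool), Fin (bl x y k c)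
    where
  toFun v := ⟨⟨v.1.x, v.2.1⟩, ⟨v.1.y, v.2.2.1⟩, v.1.k, v.1.c, ⟨v.1.i, v.2.2.2⟩⟩
  invFun s := ⟨⟨s.1, s.2.1, s.2.2.1, s.2.2.2.1, s.2.2.2.2⟩, s.1.2, s.2.1.2, s.2.2.2.2.2⟩
  left_inv := by rintro ⟨⟨x, y, k, c, i⟩, h⟩; rfl
  right_inv := by rintro ⟨⟨x, _⟩, ⟨y, _⟩, k, c, ⟨i, _⟩⟩; rfl

theorem pf_mn : K_MN := by
  intro W H
  refine ⟨Finite.of_equiv _ (moEquiv W H).symm, ?_⟩
  rw [Nat.card_congr (moEquiv W H), Nat.card_eq_fintype_card, Fintype.card_sigma]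
  unfold cnt
  rw [Finset.sum_range]
  refine Finset.sum_congr rfl fun x _ => ?_
  rw [Fintype.card_sigma, Finset.sum_range]
  refine Finset.sum_congr rfl fun y _ => ?_
  rw [Fintype.card_sigma, ← sum_bl]
  refine Finset.sum_congr rfl fun k _ => ?_
  rw [Fintype.card_sigma]
  refine Finset.sum_congr rfl fun c _ => ?_
  exact Fintype.card_fin _

end Pool.Agent.H56.DI
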