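import Pool.Agent.H56.DI.MS

/-!
Row MO of the board dik_modules: the linear order of the model satisfies the axioms.
-/

set_option autoImplicit false

namespace Pool.Agent.H56.DI

open Pool.Agent.H8.DI Pool.Agent.H16.TO Pool.Agent.H8.PL

section
variable {W H : ℕ} {Q : Type}

/-- elements of kind 0 are below the elements of other kinds of the same chunk -/
theorem lM_of_fM {v w : Mo W H} (h : fM v w) (hk : v.1.k < w.1.k) : lM v w :=
  Or.inr ⟨h.2, Or.inr ⟨h.1, Or.inl hk⟩⟩

/-- the element of the own block -/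
def own0 (v : Mo W H) (h : v.1.k = 3) : Mo W H :=
  ⟨⟨v.1.x, v.1.y, 0, v.1.c, v.1.i⟩, v.2.1, v.2.2.1, by
    have := v.2.2.2
    rw [h] at this
    exact this⟩

/-- the element of the second copy of the own block -/
def own3 (v : Mo W H) (h : v.1.k = 0) : Mo W H :=
  ⟨⟨v.1.x, v.1.y, 3, v.1.c, v.1.i⟩, v.2.1, v.2.2.1, by
    have := v.2.2.2
    rw [h] at this
    exact this⟩

theorem cx_own0 (v : Mo W H) (h : v.1.k = 3) : cx (own0 v h) = cx v := by
  unfold cx
  rw [if_neg (by rw [h]; decide : ¬ v.1.k = 1)]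
  rfl

theorem cy_own0 (v : Mo W H) (h : v.1.k = 3) : cy (own0 v h) = cy v := by
  unfold cy
  rw [if_neg (by rw [h]; decide : ¬ v.1.k = 2)]
  rfl

theorem cx_own3 (v : Mo W H) (h : v.1.k = 0) : cx (own3 v h) = cx v := by
  unfold cx
  rw [if_neg (by rw [h]; decide : ¬ v.1.k = 1)]
  rfl

theorem cy_own3 (v : Mo W H) (h : v.1.k = 0) : cy (own3 v h) = cy v := by
  unfold cy
  rw [if_neg (by rw [h]; decide : ¬ v.1.k = 2)]
  rfl

end

theorem pf_mo (hMT : K_MT) (hMS : K_MS) (hMC : K_MC) (hML : K_ML) : K_MO := by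
  intro Q U Hh Vv W H t hW hH hG
  have C := hMC Q U Hh Vv W H t hW hH hG
  have L := hML Q U Hh Vv W H t hW hH hG
  obtain ⟨s1, s2, s3, s4⟩ := hMS Q W H t hW hH
  -- links of kind 0
  have hlt : ∀ (j : Fin 4), j = 1 ∨ j = 2 → ∀ x y : Mo W H, (stM t x).k = 0 → (stM t y).k = j →
      nM x y → lM x y := by
    intro j hj x y hx hy h
    refine lM_of_fM h.1 ?_
    have h1 : x.1.k = 0 := hx
    have h2 : y.1.k = j := hy
    rw [h1, h2]
    rcases hj with rfl | rfl <;> decide
  refine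
    { tot := (hMT W H).1
      suc := (hMT W H).2
      bot := s1
      top := s2
      sh := s3
      sn := s4
      uni := ?_
      up := ?_
      lin := ?_
      lin' := ?_
      lio := ?_
      lio' := ?_
      ho := fun x y _ h2 h3 h4 => L.ho x y h2.1 h2 h3 h4
      ve := fun x y _ h2 h3 h4 => L.ve x y h2.1 h2 h3 h4 }
  · intro y y' h1 h2 h3 h4
    have h2' : y.1.k = y'.1.k := h2
    rw [fst_iff] at h3 h4
    apply mo_ext
    · unfold cy
      rw [h1.2, h2']
    · unfold cx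
      rw [h1.1, h2']
    · exact h2'
    · exact cn_inj.1 (h3.1.trans h4.1.symm)
    · exact h3.2.trans h4.2.symm
  · intro x y h1 h2 h3
    have h2' : x.1.k = 0 := h2.1
    have h3' : y.1.k = 3 := h3
    refine lM_of_fM ⟨?_, ?_⟩ ?_
    · unfold cx
      rw [h2', h3', if_neg (by decide), if_neg (by decide)]
      exact h1.1
    · unfold cy
      rw [h2', h3', if_neg (by decide), if_neg (by decide)]
      exact h1.2
    · rw [h2', h3']
      decide
  · intro j hj x hx
    obtain ⟨y, hy, hu⟩ := L.lin j hj x hx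
    exact ⟨y, ⟨hlt j hj x y hx.1 hy.2.2.1 hy.2.1, hy.2⟩, fun z hz =>
      hu z ⟨hz.2.1.1, hz.2⟩⟩
  · intro j hj y hy
    obtain ⟨x, hx, hu⟩ := L.lin' j hj y hy
    exact ⟨x, ⟨hlt j hj x y hx.2.2.1.1 hy hx.2.1, hx.2⟩, fun z hz =>
      hu z ⟨hz.2.1.1, hz.2⟩⟩
  · -- every item of the kind `j` has a partner of kind 3
    intro j hj y hy
    obtain ⟨x, hx, hu⟩ := L.lin' j hj y hy
    have hx0 : x.1.k = 0 := hx.2.2.1.1
    have hj3 : j < (3 : Fin 4) := by rcases hj with rfl | rfl <;> decide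
    have hyk : y.1.k = j := hy
    have hN : nM y (own3 x hx0) := by
      have h1 := hx.2.1
      refine ⟨⟨?_, ?_⟩, h1.2.1.symm, h1.2.2.symm⟩
      · rw [cx_own3]
        exact h1.1.1.symm
      · rw [cy_own3]
        exact h1.1.2.symm
    refine ⟨own3 x hx0, ⟨?_, hN, ⟨rfl, hx.2.2.1.2⟩, hx.2.2.2⟩, fun z hz => ?_⟩
    · refine lM_of_fM hN.1 ?_
      rw [hyk]
      exact hj3
    · have hz3 : z.1.k = 3 := hz.2.2.1.1
      have h0 : own0 z hz3 = x := by
        have hN' : nM (own0 z hz3) y := by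
          have h1 := hz.2.1
          refine ⟨⟨?_, ?_⟩, h1.2.1.symm, h1.2.2.symm⟩
          · rw [cx_own0]
            exact h1.1.1.symm
          · rw [cy_own0]
            exact h1.1.2.symm
        exact hu _ ⟨hN'.1, hN', ⟨rfl, hz.2.2.1.2⟩, hz.2.2.2⟩
      subst h0
      apply mo_ext
      · rw [cy_own3, cy_own0]
      · rw [cx_own3, cx_own0]
      · exact hz3
      · rfl
      · rfl
  · -- every item of kind 3 has a partner of the kind `j`
    intro j hj x hx
    have hx3 : x.1.k = 3 := hx.1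
    obtain ⟨y, hy, hu⟩ := L.lin j hj (own0 x hx3) ⟨rfl, hx.2⟩
    have hj3 : j < (3 : Fin 4) := by rcases hj with rfl | rfl <;> decide
    have hyk : y.1.k = j := hy.2.2.1
    have hN : nM y x := by
      have h1 := hy.2.1
      refine ⟨⟨?_, ?_⟩, h1.2.1.symm, h1.2.2.symm⟩
      · rw [← cx_own0 x hx3]
        exact h1.1.1.symm
      · rw [← cy_own0 x hx3]
        exact h1.1.2.symm
    refine ⟨y, ⟨?_, hN, hy.2.2⟩, fun z hz => ?_⟩
    · refine lM_of_fM hN.1 ?_
      rw [hyk, hx3]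
      exact hj3
    · have hN' : nM (own0 x hx3) z := by
        have h1 := hz.2.1
        refine ⟨⟨?_, ?_⟩, h1.2.1.symm, h1.2.2.symm⟩
        · rw [cx_own0]
          exact h1.1.1.symm
        · rw [cy_own0]
          exact h1.1.2.symm
      exact hu z ⟨hN'.1, hN', hz.2.2⟩

end Pool.Agent.H56.DI
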