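import Pool.Agent.H56.DI.MT

/-!
Row MS of the board dik_modules: the successor relation of the model.
-/

set_option autoImplicit false

namespace Pool.Agent.H56.DI

open Pool.Agent.H8.DI Pool.Agent.H16.TO

section
variable {W H : ℕ}

theorem cx_lt (v : Mo W H) : cx v < W := by
  have := v.2.1
  unfold cx
  split_ifs <;> omega

theorem cy_lt (v : Mo W H) : cy v < H := by
  have := v.2.2.1
  unfold cy
  split_ifs <;> omega

/-- the head of the chunk -/
def hd (v : Mo W H) : Mo W H :=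
  ⟨⟨cx v, cy v, 0, false, 0⟩, cx_lt v, cy_lt v, by simp [bl]⟩

/-- the first element of kind 3 of the chunk -/
def tp (v : Mo W H) : Mo W H :=
  ⟨⟨cx v, cy v, 3, false, 0⟩, cx_lt v, cy_lt v, by simp [bl]⟩

/-- the first item of the block -/
def fi (v : Mo W H) : Mo W H :=
  ⟨⟨v.1.x, v.1.y, v.1.k, false, 0⟩, v.2.1, v.2.2.1, by
    show 0 < bl v.1.x v.1.y v.1.k false
    unfold bl
    by_cases h1 : v.1.k = 1
    · have := mo_x v h1
      rw [if_pos h1, if_neg (by omega)]
      simpa using this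
    · rw [if_neg h1]
      by_cases h2 : v.1.k = 2
      · have := mo_y v h2
        rw [if_pos h2, if_neg (by omega)]
        simp
      · rw [if_neg h2]
        simp⟩

theorem cx_hd (v : Mo W H) : cx (hd v) = cx v := by
  show (if (0 : Fin 4) = 1 then cx v - 1 else cx v) = cx v
  rw [if_neg (by decide)]

theorem cy_hd (v : Mo W H) : cy (hd v) = cy v := by
  show (if (0 : Fin 4) = 2 then cy v - 1 else cy v) = cy v
  rw [if_neg (by decide)]

theorem cx_tp (v : Mo W H) : cx (tp v) = cx v := by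
  show (if (3 : Fin 4) = 1 then cx v - 1 else cx v) = cx v
  rw [if_neg (by decide)]

theorem cy_tp (v : Mo W H) : cy (tp v) = cy v := by
  show (if (3 : Fin 4) = 2 then cy v - 1 else cy v) = cy v
  rw [if_neg (by decide)]

theorem cx_fi (v : Mo W H) : cx (fi v) = cx v := rfl

theorem cy_fi (v : Mo W H) : cy (fi v) = cy v := rfl

theorem hd_k (v : Mo W H) : (hd v).1.k.val = 0 := rfl
theorem hd_c (v : Mo W H) : cn (hd v).1.c = 0 := rfl
theorem hd_i (v : Mo W H) : (hd v).1.i = 0 := rfl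
theorem tp_k (v : Mo W H) : (tp v).1.k.val = 3 := rfl
theorem fi_k (v : Mo W H) : (fi v).1.k.val = v.1.k.val := rfl
theorem fi_c (v : Mo W H) : cn (fi v).1.c = 0 := rfl
theorem fi_i (v : Mo W H) : (fi v).1.i = 0 := rfl

theorem cn_zero {c : Bool} : cn c = 0 ↔ c = false := by
  cases c <;> simp [cn]

theorem fst_iff {Q : Type} (t : ℕ → ℕ → Q) (v : Mo W H) :
    fst (stM t v) ↔ cn v.1.c = 0 ∧ v.1.i = 0 := by
  unfold fst Pool.Agent.H8.DI.stM
  rw [cn_zero]
  simp

theorem head_iff {Q : Type} (t : ℕ → ℕ → Q) (v : Mo W H) :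
    head (stM t v) ↔ v.1.k.val = 0 ∧ cn v.1.c = 0 ∧ v.1.i = 0 := by
  unfold head
  rw [fst_iff]
  have : (stM t v).k = 0 ↔ v.1.k.val = 0 := by
    show v.1.k = 0 ↔ v.1.k.val = 0
    rw [Fin.ext_iff]
    rfl
  rw [this]

theorem hd_lt {Q : Type} (t : ℕ → ℕ → Q) (v : Mo W H) (h : ¬ head (stM t v)) : lM (hd v) v := by
  rw [head_iff] at h
  rw [lM_iff, cx_hd, cy_hd, hd_k, hd_c, hd_i]
  omega

theorem lt_tp (v : Mo W H) (h : v.1.k ≠ 3) : lM v (tp v) := by
  rw [lM_iff, cx_tp, cy_tp, tp_k]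
  have h1 := v.1.k.isLt
  have h2 : v.1.k.val ≠ 3 := fun h3 => h (Fin.ext h3)
  omega

theorem k_lt (v : Mo W H) : v.1.k.val < 4 := v.1.k.isLt

theorem ex_pred (hMN : K_MN) (x : Mo W H) (h : ∃ y, lM y x) : ∃ y, sM y x := by
  have := (hMN W H).1
  have hwf : WellFounded (fun a b : Mo W H => lM b a) := by
    have i1 : IsTrans (Mo W H) (fun a b => lM b a) := ⟨fun a b c h1 h2 => lM_trans h2 h1⟩
    have i2 : Std.Irrefl (fun a b : Mo W H => lM b a) := ⟨fun a => lM_irrefl a⟩
    exact Finite.wellFounded_of_trans_of_irrefl _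
  obtain ⟨y, hy, hm⟩ := hwf.has_min {y | lM y x} h
  exact ⟨y, hy, fun u hu => hm u hu.2 hu.1⟩

theorem ex_succ (hMN : K_MN) (x : Mo W H) (h : ∃ y, lM x y) : ∃ y, sM x y := by
  have := (hMN W H).1
  have hwf : WellFounded (fun a b : Mo W H => lM a b) := by
    have i1 : IsTrans (Mo W H) (fun a b => lM a b) := ⟨fun a b c h1 h2 => lM_trans h1 h2⟩
    have i2 : Std.Irrefl (fun a b : Mo W H => lM a b) := ⟨fun a => lM_irrefl a⟩
    exact Finite.wellFounded_of_trans_of_irrefl _
  obtain ⟨y, hy, hm⟩ := hwf.has_min {y | lM x y} h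
  exact ⟨y, hy, fun u hu => hm u hu.1 hu.2⟩

end

theorem pf_ms (hMN : K_MN) : K_MS := by
  intro Q W H t _ _
  refine ⟨fun x hx => ?_, fun x hx => ?_, fun x y hxy hy => ?_, fun x y hxy hy => ?_⟩
  · by_contra h
    obtain ⟨y, hy⟩ := ex_pred hMN x ⟨_, hd_lt t x h⟩
    exact hx y hy
  · by_contra h
    obtain ⟨y, hy⟩ := ex_succ hMN x ⟨_, lt_tp x h⟩
    exact hx y hy
  · by_contra h
    refine hxy.2 (tp x) ⟨lt_tp x h, ?_⟩
    have h1 := hxy.1
    rw [head_iff] at hy
    rw [lM_iff] at h1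
    rw [lM_iff, cx_tp, cy_tp]
    omega
  · have h1 := hxy.1
    rw [lM_iff] at h1
    -- the chunks are the same
    have h2 : ¬ lM x (hd y) := fun h => hxy.2 (hd y) ⟨h, hd_lt t y hy⟩
    rw [lM_iff, cx_hd, cy_hd] at h2
    have e1 : cy x = cy y := by omega
    have e2 : cx x = cx y := by omega
    have h3 : x.1.k.val ≤ y.1.k.val := by omega
    refine ⟨h3, fun h4 => ?_, fun h4 => ?_⟩
    · have h4' : x.1.k = y.1.k := h4
      have h5 : x.1.k.val = y.1.k.val := by rw [h4']
      refine ⟨⟨?_, ?_⟩, ?_⟩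
      · have e3 := e2
        unfold cx at e3
        by_cases h : x.1.k = 1
        · have h' : y.1.k = 1 := h4' ▸ h
          have := mo_x x h
          have := mo_x y h'
          rw [if_pos h, if_pos h'] at e3
          omega
        · have h' : ¬ y.1.k = 1 := h4' ▸ h
          rwa [if_neg h, if_neg h'] at e3
      · have e3 := e1
        unfold cy at e3
        by_cases h : x.1.k = 2
        · have h' : y.1.k = 2 := h4' ▸ h
          have := mo_y x h
          have := mo_y y h'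
          rw [if_pos h, if_pos h'] at e3
          omega
        · have h' : ¬ y.1.k = 2 := h4' ▸ h
          rwa [if_neg h, if_neg h'] at e3
      · rw [fst_iff]
        omega
    · have h4' : x.1.k.val ≠ y.1.k.val := fun h => h4 (Fin.ext h)
      by_contra h5
      rw [fst_iff] at h5
      refine hxy.2 (fi y) ⟨?_, ?_⟩
      · rw [lM_iff, cx_fi, cy_fi, fi_k]
        omega
      · rw [lM_iff, cx_fi, cy_fi, fi_k, fi_c, fi_i]
        omega

end Pool.Agent.H56.DI
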