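import Pool.Agent.H8.DI.Targets

/-!
Row MT of the board dik_modules: the linear order of the model.
-/

set_option autoImplicit false

namespace Pool.Agent.H56.DI

open Pool.Agent.H8.DI Pool.Agent.H16.TO

theorem cn_inj {c c' : Bool} : cn c = cn c' ↔ c = c' := by
  cases c <;> cases c' <;> simp [cn]

/-- the order as a statement on natural numbers -/
theorem lM_iff {W H : ℕ} (v w : Mo W H) : lM v w ↔
    cy v < cy w ∨ (cy v = cy w ∧ (cx v < cx w ∨ (cx v = cx w ∧ (v.1.k.val < w.1.k.val ∨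
      (v.1.k.val = w.1.k.val ∧ (cn v.1.c < cn w.1.c ∨ (cn v.1.c = cn w.1.c ∧
        v.1.i < w.1.i))))))) := by
  unfold lM
  rw [cn_inj, Fin.lt_def, Fin.ext_iff]

theorem mo_x {W H : ℕ} (v : Mo W H) (h : v.1.k = 1) : 0 < v.1.x := by
  have := v.2.2.2
  rcases Nat.eq_zero_or_pos v.1.x with h0 | h0
  · rw [h, h0] at this
    simp [bl] at this
  · exact h0

theorem mo_y {W H : ℕ} (v : Mo W H) (h : v.1.k = 2) : 0 < v.1.y := by
  have := v.2.2.2
  rcases Nat.eq_zero_or_pos v.1.y with h0 | h0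
  · rw [h, h0] at this
    simp [bl] at this
  · exact h0

theorem mo_ext {W H : ℕ} {v w : Mo W H} (h1 : cy v = cy w) (h2 : cx v = cx w)
    (h3 : v.1.k = w.1.k) (h4 : v.1.c = w.1.c) (h5 : v.1.i = w.1.i) : v = w := by
  have hx : v.1.x = w.1.x := by
    unfold cx at h2
    by_cases h : v.1.k = 1
    · have h' : w.1.k = 1 := h3 ▸ h
      have := mo_x v h
      have := mo_x w h'
      rw [if_pos h, if_pos h'] at h2
      omega
    · have h' : ¬ w.1.k = 1 := h3 ▸ h
      rwa [if_neg h, if_neg h'] at h2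
  have hy : v.1.y = w.1.y := by
    unfold cy at h1
    by_cases h : v.1.k = 2
    · have h' : w.1.k = 2 := h3 ▸ h
      have := mo_y v h
      have := mo_y w h'
      rw [if_pos h, if_pos h'] at h1
      omega
    · have h' : ¬ w.1.k = 2 := h3 ▸ h
      rwa [if_neg h, if_neg h'] at h1
  obtain ⟨⟨x, y, k, c, i⟩, hv⟩ := v
  obtain ⟨⟨x', y', k', c', i'⟩, hw⟩ := w
  simp only at hx hy h3 h4 h5
  subst hx hy h3 h4 h5
  rfl

theorem lM_irrefl {W H : ℕ} (v : Mo W H) : ¬ lM v v := by
  rw [lM_iff]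
  omega

theorem lM_trans {W H : ℕ} {u v w : Mo W H} (h1 : lM u v) (h2 : lM v w) : lM u w := by
  rw [lM_iff] at *
  omega

theorem lM_tri {W H : ℕ} (v w : Mo W H) : lM v w ∨ v = w ∨ lM w v := by
  by_cases h1 : lM v w
  · exact Or.inl h1
  by_cases h2 : lM w v
  · exact Or.inr (Or.inr h2)
  refine Or.inr (Or.inl ?_)
  rw [lM_iff] at h1 h2
  have e1 : cy v = cy w := by omega
  have e2 : cx v = cx w := by omega
  have e3 : v.1.k.val = w.1.k.val := by omega
  have e4 : cn v.1.c = cn w.1.c := by omega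
  have e5 : v.1.i = w.1.i := by omega
  exact mo_ext e1 e2 (Fin.ext e3) (cn_inj.1 e4) e5

theorem pf_mt : K_MT := by
  intro W H
  refine ⟨?_, fun a b => Iff.rfl⟩
  exact
    { trichotomous := fun a b h1 h2 => by
        rcases lM_tri a b with h | h | h
        · exact absurd h h1
        · exact h
        · exact absurd h h2
      irrefl := lM_irrefl
      trans := fun a b c => lM_trans }

end Pool.Agent.H56.DI
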